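import Mathlib

set_option autoImplicit false

open Set
open scoped ENNReal NNReal

namespace Pool.Agent.Results.MP_61cfb3_pr.RetraceBeatsGeometric

/-! ### The game -/

/-- A trajectory: a map from `[0, ∞)` to the line, starting at `0`, with speed at most `1`. -/
def IsTrajectory (S : ℝ≥0 → ℝ) : Prop :=
  Continuous S ∧ S 0 = 0 ∧ ∀ t t' : ℝ≥0, |S t - S t'| ≤ |(t : ℝ) - (t' : ℝ)|

/-- The visits of `S` to `H`: the connected components of the level set of `H`. -/
def visits (S : ℝ≥0 → ℝ) (H : ℝ) : Set (Set ℝ≥0) :=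
  {C | ∃ s ∈ S ⁻¹' {H}, C = connectedComponentIn (S ⁻¹' {H}) s}

/-- `S` is admitted: for every hiding place `H ≠ 0`, each bounded time interval `[0, b]` meets
only finitely many components of the level set of `H`. -/
def Admitted (S : ℝ≥0 → ℝ) : Prop :=
  ∀ H : ℝ, H ≠ 0 → ∀ b : ℝ≥0, {C | C ∈ visits S H ∧ (C ∩ Icc 0 b).Nonempty}.Finite

/-- The left endpoints of the components. -/
def visitStarts (S : ℝ≥0 → ℝ) (H : ℝ) : Set ℝ≥0 :=
  {t | ∃ C ∈ visits S H, IsLeast C t}

/-- `t 0 < t 1 < t 2 < ...` is the list of all visit times to `H` (there is at most one such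
sequence, and there is none if `H` is visited only finitely often). -/
def IsVisitTimes (S : ℝ≥0 → ℝ) (H : ℝ) (t : ℕ → ℝ≥0) : Prop :=
  StrictMono t ∧ Set.range t = visitStarts S H

/-- The expected capture time `∑ P_i t_i(H)` with `P_i = (1 - p)^(i-1) p`; it is `∞` if there
is no infinite list of visit times. -/
noncomputable def expectedTime (p : ℝ) (S : ℝ≥0 → ℝ) (H : ℝ) : ℝ≥0∞ :=
  ⨅ (t : ℕ → ℝ≥0) (_ : IsVisitTimes S H t),
    ∑' i : ℕ, ENNReal.ofReal ((1 - p) ^ i * p) * (t i : ℝ≥0∞)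

/-- The guaranteed cost `v(S)`: the supremum over `H ≠ 0` of the normalized cost. -/
noncomputable def guaranteedCost (p : ℝ) (S : ℝ≥0 → ℝ) : ℝ≥0∞ :=
  ⨆ (H : ℝ) (_ : H ≠ 0), expectedTime p S H / ENNReal.ofReal |H|

/-- The pure value: the infimum of the guaranteed cost over all admitted trajectories. -/
noncomputable def pureValue (p : ℝ) : ℝ≥0∞ :=
  ⨅ (S : ℝ≥0 → ℝ) (_ : IsTrajectory S ∧ Admitted S), guaranteedCost p S

/-- The best guaranteed cost among monotonic periodic trajectories. -/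
noncomputable def Vhat (p : ℝ) : ℝ := p / (2 - p) + 8 / p

/-! ### Enumerations of locally finite sets of times -/

lemma exists_enum {A : Set ℝ≥0} (hinf : A.Infinite) (hfin : ∀ b, (A ∩ Iic b).Finite) :
    ∃ t : ℕ → ℝ≥0, StrictMono t ∧ Set.range t = A := by
  classical
  let N : A → ℕ := fun x => (A ∩ Iio (x : ℝ≥0)).ncard
  have hfin' : ∀ b, (A ∩ Iio b).Finite := fun b =>
    (hfin b).subset (inter_subset_inter_right _ Iio_subset_Iic_self)
  have hN : StrictMono N := by
    intro x y hxy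
    apply Set.ncard_lt_ncard _ (hfin' _)
    refine ⟨inter_subset_inter_right _ (Iio_subset_Iio (le_of_lt hxy)), fun h => ?_⟩
    exact lt_irrefl (x : ℝ≥0) (h ⟨x.2, hxy⟩).2
  have : Infinite A := hinf.to_subtype
  have : Infinite (Set.range N) :=
    Infinite.of_injective _ (Set.rangeFactorization_injective.2 hN.injective)
  let e1 : A ≃o Set.range N := hN.orderIso N
  let e2 : ℕ ≃o Set.range N := Nat.Subtype.orderIsoOfNat (Set.range N)
  let e : ℕ ≃o A := e2.trans e1.symm
  refine ⟨fun n => (e n : ℝ≥0), fun m n h => ?_, ?_⟩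
  · exact e.strictMono h
  · ext x
    constructor
    · rintro ⟨n, rfl⟩
      exact (e n).2
    · intro hx
      exact ⟨e.symm ⟨x, hx⟩, by simp⟩

lemma enum_le {t s : ℕ → ℝ≥0} (ht : StrictMono t) (hs : StrictMono s)
    (h : Set.range s ⊆ Set.range t) (i : ℕ) : t i ≤ s i := by
  choose k hk using fun i => h ⟨i, rfl⟩
  have hk' : StrictMono k := by
    intro i j hij
    have := hs hij
    rw [← hk i, ← hk j] at this
    exact ht.lt_iff_lt.1 this
  rw [← hk i]
  exact ht.monotone (hk'.le_apply)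

/-- If every level set is locally finite, visits are single points. -/
lemma visits_eq {S : ℝ≥0 → ℝ} {H : ℝ} (hfin : ∀ b, (S ⁻¹' {H} ∩ Iic b).Finite) :
    ∀ s ∈ S ⁻¹' {H}, connectedComponentIn (S ⁻¹' {H}) s = {s} := by
  intro s hs
  have hc : (S ⁻¹' {H}).Countable := by
    have : S ⁻¹' {H} = ⋃ n : ℕ, (S ⁻¹' {H} ∩ Iic (n : ℝ≥0)) := by
      rw [← inter_iUnion]
      rw [eq_comm, inter_eq_left]
      intro x _
      obtain ⟨n, hn⟩ := exists_nat_ge x
      exact mem_iUnion.2 ⟨n, hn⟩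
    rw [this]
    exact countable_iUnion fun n => (hfin n).countable
  have htd := hc.isTotallyDisconnected
  have hsub := htd (connectedComponentIn (S ⁻¹' {H}) s) (connectedComponentIn_subset _ _)
    isPreconnected_connectedComponentIn
  exact hsub.eq_singleton_of_mem (mem_connectedComponentIn hs)

lemma visitStarts_eq {S : ℝ≥0 → ℝ} {H : ℝ} (hfin : ∀ b, (S ⁻¹' {H} ∩ Iic b).Finite) :
    visitStarts S H = S ⁻¹' {H} := by
  ext t
  constructor
  · rintro ⟨C, ⟨s, hs, rfl⟩, ht⟩
    rw [visits_eq hfin s hs] at ht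
    have := ht.1
    rw [mem_singleton_iff] at this
    rw [this]; exact hs
  · intro ht
    refine ⟨{t}, ⟨t, ht, (visits_eq hfin t ht).symm⟩, ?_⟩
    exact isLeast_singleton

lemma admitted_of_finite {S : ℝ≥0 → ℝ}
    (hfin : ∀ H : ℝ, H ≠ 0 → ∀ b, (S ⁻¹' {H} ∩ Iic b).Finite) : Admitted S := by
  intro H hH b
  refine ((hfin H hH b).image (fun s => ({s} : Set ℝ≥0))).subset ?_
  rintro C ⟨⟨s, hs, rfl⟩, hb⟩
  rw [visits_eq (hfin H hH) s hs] at hb ⊢
  obtain ⟨x, hx, hx'⟩ := hb
  rw [mem_singleton_iff] at hx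
  subst hx
  exact ⟨x, ⟨hs, hx'.2⟩, rfl⟩

/-- Upper bound for the expected capture time from a list of some of the visit times. -/
lemma expectedTime_le {S : ℝ≥0 → ℝ} {H : ℝ} (hfin : ∀ b, (S ⁻¹' {H} ∩ Iic b).Finite)
    {p : ℝ} {s : ℕ → ℝ≥0} (hs : StrictMono s) (hsS : ∀ m, S (s m) = H) {c : ℝ}
    (hp0 : 0 ≤ p) (hp1 : p ≤ 1)
    (hc : HasSum (fun m => ((1 - p) ^ m * p) * (s m : ℝ)) c) :
    expectedTime p S H ≤ ENNReal.ofReal c := by
  have hinf : (S ⁻¹' {H}).Infinite := by
    refine (Set.infinite_range_of_injective hs.injective).mono ?_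
    rintro _ ⟨m, rfl⟩
    exact hsS m
  obtain ⟨t, ht, htr⟩ := exists_enum hinf hfin
  have hv : IsVisitTimes S H t := ⟨ht, by rw [htr, visitStarts_eq hfin]⟩
  have hle : ∀ m, t m ≤ s m := enum_le ht hs (by
    rw [htr]; rintro _ ⟨m, rfl⟩; exact hsS m)
  calc expectedTime p S H ≤ ∑' i : ℕ, ENNReal.ofReal ((1 - p) ^ i * p) * (t i : ℝ≥0∞) :=
        iInf₂_le t hv
    _ ≤ ∑' i : ℕ, ENNReal.ofReal ((1 - p) ^ i * p) * (s i : ℝ≥0∞) := by
        refine ENNReal.tsum_le_tsum fun i => ?_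
        gcongr
        exact_mod_cast hle i
    _ = ENNReal.ofReal c := by
        rw [← hc.tsum_eq, ENNReal.ofReal_tsum_of_nonneg _ hc.summable]
        · congr 1
          ext i
          have h0 : 0 ≤ (1 - p) ^ i * p := by have := sub_nonneg.2 hp1; positivity
          rw [ENNReal.ofReal_mul (q := (s i : ℝ)) h0, ENNReal.ofReal_coe_nnreal]
        · intro i
          have := sub_nonneg.2 hp1
          positivity

/-! ### The profile of one excursion -/

/-- The profile of one (rescaled) excursion: up to `b (1 + e)`, back to `b`, up to `1`,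
back to `0`. -/
noncomputable def prof (b e u : ℝ) : ℝ :=
  max (min u (2 * b * (1 + e) - u)) (min (u - 2 * b * e) (2 + 2 * b * e - u))

/-- The length of one (rescaled) excursion. -/
noncomputable def len (b e : ℝ) : ℝ := 2 + 2 * b * e

lemma abs_min_sub_min_le' {x y z w d : ℝ} (h1 : |x - z| ≤ d) (h2 : |y - w| ≤ d) :
    |min x y - min z w| ≤ d := by
  rw [abs_le] at *
  rcases min_cases x y with h | h <;> rcases min_cases z w with h' | h' <;>
    constructor <;> linarith

lemma abs_max_sub_max_le' {x y z w d : ℝ} (h1 : |x - z| ≤ d) (h2 : |y - w| ≤ d) :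
    |max x y - max z w| ≤ d := by
  rw [abs_le] at *
  rcases max_cases x y with h | h <;> rcases max_cases z w with h' | h' <;>
    constructor <;> linarith

lemma prof_lip (b e u v : ℝ) : |prof b e u - prof b e v| ≤ |u - v| := by
  unfold prof
  refine abs_max_sub_max_le' (abs_min_sub_min_le' le_rfl ?_) (abs_min_sub_min_le' ?_ ?_)
  · rw [show 2 * b * (1 + e) - u - (2 * b * (1 + e) - v) = -(u - v) by ring, abs_neg]
  · rw [show u - 2 * b * e - (v - 2 * b * e) = u - v by ring]
  · rw [show 2 + 2 * b * e - u - (2 + 2 * b * e - v) = -(u - v) by ring, abs_neg]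

variable {b e : ℝ}

lemma prof_zero (hb : 0 < b) (he : 0 < e) : prof b e 0 = 0 := by
  unfold prof
  have h1 : 0 < b * e := mul_pos hb he
  rw [min_eq_left (by nlinarith), max_eq_left]
  exact (min_le_left _ _).trans (by nlinarith)

lemma prof_len (hb : 0 < b) (hb1 : b < 1) (he : 0 < e) : prof b e (len b e) = 0 := by
  unfold prof len
  have h1 : 0 < b * e := mul_pos hb he
  rw [max_eq_right]
  · rw [min_eq_right (by nlinarith)]; ring
  · refine le_trans (min_le_right _ _) ?_
    refine le_min (by nlinarith) (by nlinarith)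

lemma prof_first (hb : 0 < b) (he : 0 < e) {u : ℝ} (hu : u ≤ b * (1 + e)) :
    prof b e u = u := by
  unfold prof
  have h1 : 0 < b * e := mul_pos hb he
  rw [min_eq_left (by nlinarith), max_eq_left]
  exact (min_le_left _ _).trans (by nlinarith)

lemma prof_out {u : ℝ} (hu : b + 2 * b * e ≤ u)
    (hu' : u ≤ 1 + 2 * b * e) : prof b e u = u - 2 * b * e := by
  unfold prof
  rw [min_eq_left (a := u - 2 * b * e) (by nlinarith), max_eq_right]
  exact (min_le_right _ _).trans (by nlinarith)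

lemma prof_back (hb1 : b < 1) {u : ℝ} (hu : 1 + 2 * b * e ≤ u) :
    prof b e u = 2 + 2 * b * e - u := by
  unfold prof
  rw [min_eq_right (a := u - 2 * b * e) (by nlinarith), max_eq_right]
  exact (min_le_right _ _).trans (by nlinarith)

lemma prof_level {u w : ℝ} (h : prof b e u = w) :
    u ∈ ({w, 2 * b * (1 + e) - w, w + 2 * b * e, 2 + 2 * b * e - w} : Set ℝ) := by
  unfold prof at h
  simp only [mem_insert_iff, mem_singleton_iff]
  rcases max_choice (min u (2 * b * (1 + e) - u)) (min (u - 2 * b * e) (2 + 2 * b * e - u)) with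
    h1 | h1 <;> rw [h1] at h
  · rcases min_choice u (2 * b * (1 + e) - u) with h2 | h2 <;> rw [h2] at h
    · left; exact h
    · right; left; linarith
  · rcases min_choice (u - 2 * b * e) (2 + 2 * b * e - u) with h2 | h2 <;> rw [h2] at h
    · right; right; left; linarith
    · right; right; right; linarith

lemma prof_le (hb : 0 < b) (he : 0 < e) {u : ℝ} (hu : 0 ≤ u) : |prof b e u| ≤ u := by
  have := prof_lip b e u 0
  rwa [prof_zero hb he, sub_zero, sub_zero, abs_of_nonneg hu] at this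

lemma prof_le' (hb : 0 < b) (hb1 : b < 1) (he : 0 < e) {u : ℝ} (hu : u ≤ len b e) :
    |prof b e u| ≤ len b e - u := by
  have := prof_lip b e u (len b e)
  rwa [prof_len hb hb1 he, sub_zero, abs_sub_comm, abs_of_nonneg (sub_nonneg.2 hu)] at this

/-! ### The trajectory -/

/-- Starting time of excursion `n`. -/
noncomputable def T (a b e : ℝ) (n : ℤ) : ℝ := len b e / (a - 1) * a ^ n

/-- Excursion `n`. -/
noncomputable def exc (a b e : ℝ) (n : ℤ) (t : ℝ) : ℝ :=
  (-1) ^ n * (a ^ n * prof b e ((t - T a b e n) / a ^ n))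

open Classical in
/-- The trajectory. -/
noncomputable def traj (a b e : ℝ) (t : ℝ≥0) : ℝ :=
  if h : ∃ n : ℤ, T a b e n ≤ t ∧ (t : ℝ) < T a b e (n + 1) then exc a b e h.choose t else 0

/-- Constraints on the parameters: `b = 1 / a ^ 2`. -/
structure Good (a b e : ℝ) : Prop where
  ha : 1 < a
  hb : 0 < b
  hb1 : b < 1
  he : 0 < e
  hab : b * a ^ 2 = 1

variable {a : ℝ}

lemma len_pos (h : Good a b e) : 0 < len b e := by
  unfold len
  have := h.hb; have := h.he
  positivity

lemma coef_pos (h : Good a b e) : 0 < len b e / (a - 1) :=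
  div_pos (len_pos h) (sub_pos.2 h.ha)

lemma a_pos (h : Good a b e) : 0 < a := lt_trans one_pos h.ha

lemma T_pos (h : Good a b e) (n : ℤ) : 0 < T a b e n :=
  mul_pos (coef_pos h) (zpow_pos (a_pos h) n)

lemma T_succ (h : Good a b e) (n : ℤ) : T a b e (n + 1) = T a b e n + len b e * a ^ n := by
  unfold T
  have h1 : a - 1 ≠ 0 := (sub_pos.2 h.ha).ne'
  rw [zpow_add_one₀ (a_pos h).ne']
  field_simp
  ring

lemma T_strictMono (h : Good a b e) : StrictMono (T a b e) := by
  intro m n hmn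
  exact mul_lt_mul_of_pos_left (zpow_lt_zpow_right₀ h.ha hmn) (coef_pos h)

lemma exists_block (h : Good a b e) {t : ℝ} (ht : 0 < t) :
    ∃ n : ℤ, T a b e n ≤ t ∧ t < T a b e (n + 1) := by
  obtain ⟨n, hn, hn'⟩ := exists_mem_Ico_zpow (div_pos ht (coef_pos h)) h.ha
  refine ⟨n, ?_, ?_⟩
  · rw [le_div_iff₀ (coef_pos h)] at hn
    unfold T; linarith
  · rw [div_lt_iff₀ (coef_pos h)] at hn'
    unfold T; linarith

lemma exc_left (h : Good a b e) (n : ℤ) : exc a b e n (T a b e n) = 0 := by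
  unfold exc
  rw [sub_self, zero_div, prof_zero h.hb h.he]; ring

lemma exc_right (h : Good a b e) (n : ℤ) : exc a b e n (T a b e (n + 1)) = 0 := by
  unfold exc
  have : (a ^ n) ≠ 0 := (zpow_pos (a_pos h) n).ne'
  rw [T_succ h, add_sub_cancel_left, mul_div_assoc, div_self this, mul_one,
    prof_len h.hb h.hb1 h.he]
  ring

lemma traj_eq (h : Good a b e) {n : ℤ} {t : ℝ≥0} (h1 : T a b e n ≤ t)
    (h2 : (t : ℝ) ≤ T a b e (n + 1)) : traj a b e t = exc a b e n t := by
  have hpos : (0 : ℝ) < t := lt_of_lt_of_le (T_pos h n) h1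
  have hex : ∃ n : ℤ, T a b e n ≤ t ∧ (t : ℝ) < T a b e (n + 1) := exists_block h hpos
  unfold traj
  rw [dif_pos hex]
  obtain ⟨h3, h4⟩ := hex.choose_spec
  generalize hex.choose = m at h3 h4 ⊢
  rcases lt_trichotomy m n with hlt | heq | hgt
  · exfalso
    have := (T_strictMono h).monotone (show m + 1 ≤ n by omega)
    linarith
  · rw [heq]
  · have h5 := (T_strictMono h).monotone (show n + 1 ≤ m by omega)
    have h6 : (t : ℝ) = T a b e m := le_antisymm (h2.trans h5) h3
    have h7 : (t : ℝ) = T a b e (n + 1) := le_antisymm h2 (h5.trans h3)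
    rw [h6, exc_left h, ← h6, h7, exc_right h]

lemma traj_zero (h : Good a b e) : traj a b e 0 = 0 := by
  unfold traj
  rw [dif_neg]
  rintro ⟨n, hn, -⟩
  have := T_pos h n
  simp only [NNReal.coe_zero] at hn
  linarith

lemma abs_exc (n : ℤ) (t : ℝ) (h : Good a b e) :
    |exc a b e n t| = a ^ n * |prof b e ((t - T a b e n) / a ^ n)| := by
  unfold exc
  rw [abs_mul, abs_mul, abs_of_pos (zpow_pos (a_pos h) n)]
  have : |((-1 : ℝ)) ^ n| = 1 := by rw [abs_zpow]; simp
  rw [this, one_mul]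

lemma exc_lip (h : Good a b e) (n : ℤ) (t t' : ℝ) :
    |exc a b e n t - exc a b e n t'| ≤ |t - t'| := by
  have hpos := zpow_pos (a_pos h) n
  unfold exc
  rw [← mul_sub, ← mul_sub, abs_mul, abs_mul, abs_of_pos hpos]
  have h1 : |((-1 : ℝ)) ^ n| = 1 := by rw [abs_zpow]; simp
  rw [h1, one_mul]
  calc a ^ n * |prof b e ((t - T a b e n) / a ^ n) - prof b e ((t' - T a b e n) / a ^ n)|
      ≤ a ^ n * |(t - T a b e n) / a ^ n - (t' - T a b e n) / a ^ n| := by
        exact mul_le_mul_of_nonneg_left (prof_lip _ _ _ _) hpos.le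
    _ = |t - t'| := by
        rw [← sub_div, abs_div, abs_of_pos hpos, mul_div_cancel₀ _ hpos.ne']
        congr 1; ring

lemma exc_le_left (h : Good a b e) (n : ℤ) {t : ℝ} (ht : T a b e n ≤ t) :
    |exc a b e n t| ≤ t - T a b e n := by
  have := exc_lip h n t (T a b e n)
  rwa [exc_left h, sub_zero, abs_of_nonneg (sub_nonneg.2 ht)] at this

lemma exc_le_right (h : Good a b e) (n : ℤ) {t : ℝ} (ht : t ≤ T a b e (n + 1)) :
    |exc a b e n t| ≤ T a b e (n + 1) - t := by
  have := exc_lip h n t (T a b e (n + 1))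
  rwa [exc_right h, sub_zero, abs_sub_comm, abs_of_nonneg (sub_nonneg.2 ht)] at this

lemma traj_lip_aux (h : Good a b e) {t t' : ℝ≥0} (htt : t ≤ t') :
    |traj a b e t - traj a b e t'| ≤ (t' : ℝ) - t := by
  have htt' : (t : ℝ) ≤ t' := by exact_mod_cast htt
  rcases eq_or_lt_of_le (show (0 : ℝ) ≤ t' from t'.2) with h0 | h0
  · have h1 : t' = 0 := by exact_mod_cast h0.symm
    have h2 : t = 0 := le_antisymm (h1 ▸ htt) bot_le
    rw [h1, h2]; simp
  obtain ⟨n', hn1', hn2'⟩ := exists_block h h0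
  rcases eq_or_lt_of_le (show (0 : ℝ) ≤ t from t.2) with h1 | h1
  · have h2 : t = 0 := by exact_mod_cast h1.symm
    rw [h2, traj_zero h, zero_sub, abs_neg, traj_eq h hn1' hn2'.le]
    have := exc_le_left h n' hn1'
    have := T_pos h n'
    simp only [NNReal.coe_zero]
    linarith
  obtain ⟨n, hn1, hn2⟩ := exists_block h h1
  rw [traj_eq h hn1' hn2'.le, traj_eq h hn1 hn2.le]
  rcases lt_trichotomy n n' with hlt | heq | hgt
  · have h3 := exc_le_right h n hn2.le
    have h4 := exc_le_left h n' hn1'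
    have h5 := (T_strictMono h).monotone (show n + 1 ≤ n' by omega)
    rw [abs_le] at *
    constructor <;> linarith [h3.1, h3.2, h4.1, h4.2]
  · subst heq
    have := exc_lip h n t t'
    rwa [abs_sub_comm (t : ℝ), abs_of_nonneg (sub_nonneg.2 htt')] at this
  · exfalso
    have h5 := (T_strictMono h).monotone (show n' + 1 ≤ n by omega)
    linarith

lemma traj_lip (h : Good a b e) (t t' : ℝ≥0) :
    |traj a b e t - traj a b e t'| ≤ |(t : ℝ) - (t' : ℝ)| := by
  rcases le_total t t' with hle | hle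
  · exact (traj_lip_aux h hle).trans (by rw [abs_sub_comm]; exact le_abs_self _)
  · rw [abs_sub_comm]
    exact (traj_lip_aux h hle).trans (le_abs_self _)

lemma traj_isTrajectory (h : Good a b e) : IsTrajectory (traj a b e) := by
  refine ⟨?_, traj_zero h, traj_lip h⟩
  have : LipschitzWith 1 (traj a b e) := by
    refine LipschitzWith.of_dist_le_mul fun t t' => ?_
    rw [Real.dist_eq, NNReal.coe_one, one_mul, NNReal.dist_eq]
    exact traj_lip h t t'
  exact this.continuous

lemma traj_finite (h : Good a b e) (H : ℝ) (hH : H ≠ 0) (B : ℝ≥0) :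
    (traj a b e ⁻¹' {H} ∩ Iic B).Finite := by
  have hH' : 0 < |H| := abs_pos.2 hH
  obtain ⟨n0, hn0, hn0'⟩ := exists_block h hH'
  obtain ⟨n1, hn1, hn1'⟩ := exists_block h (show (0 : ℝ) < B + 1 by positivity)
  have hfin : (⋃ n ∈ Icc n0 n1, (fun u : ℝ => Real.toNNReal (T a b e n + a ^ n * u)) ''
      {(-1) ^ n * H / a ^ n, 2 * b * (1 + e) - (-1) ^ n * H / a ^ n,
        (-1) ^ n * H / a ^ n + 2 * b * e, 2 + 2 * b * e - (-1) ^ n * H / a ^ n}).Finite := by
    refine Set.Finite.biUnion (Set.finite_Icc n0 n1) fun n _ => ?_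
    exact (Set.toFinite _).image _
  refine hfin.subset ?_
  rintro t ⟨ht, htB⟩
  rw [mem_preimage, mem_singleton_iff] at ht
  have htB' : (t : ℝ) ≤ B := by exact_mod_cast htB
  have ht0 : |H| ≤ t := by
    have := traj_lip h t 0
    rw [ht, traj_zero h, sub_zero, NNReal.coe_zero, sub_zero] at this
    rwa [abs_of_nonneg (NNReal.coe_nonneg t)] at this
  obtain ⟨n, hn, hn'⟩ := exists_block h (lt_of_lt_of_le hH' ht0)
  rw [traj_eq h hn hn'.le] at ht
  have hpos := zpow_pos (a_pos h) n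
  have hprof : prof b e ((t - T a b e n) / a ^ n) = (-1) ^ n * H / a ^ n := by
    rw [eq_div_iff hpos.ne', ← ht]
    unfold exc
    rw [← mul_assoc ((-1 : ℝ) ^ n), ← mul_zpow]
    norm_num
    ring
  have hmem := prof_level hprof
  refine mem_biUnion (x := n) ⟨?_, ?_⟩ ⟨_, hmem, ?_⟩
  · by_contra hc
    have := (T_strictMono h).monotone (show n + 1 ≤ n0 by omega)
    linarith
  · by_contra hc
    have := (T_strictMono h).monotone (show n1 + 1 ≤ n by omega)
    linarith
  · show Real.toNNReal (T a b e n + a ^ n * ((t - T a b e n) / a ^ n)) = t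
    rw [mul_div_cancel₀ _ hpos.ne', add_sub_cancel, Real.toNNReal_coe]

/-! ### Visit times -/

lemma traj_toNNReal (h : Good a b e) {n : ℤ} {t : ℝ} (h1 : T a b e n ≤ t)
    (h2 : t ≤ T a b e (n + 1)) : traj a b e (Real.toNNReal t) = exc a b e n t := by
  have h0 : 0 ≤ t := (T_pos h n).le.trans h1
  have h3 : ((Real.toNNReal t : ℝ≥0) : ℝ) = t := Real.coe_toNNReal t h0
  rw [traj_eq h (n := n) (by rw [h3]; exact h1) (by rw [h3]; exact h2), h3]

lemma traj_first (h : Good a b e) (n : ℤ) {x : ℝ} (h0 : 0 ≤ x)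
    (h1 : x ≤ b * (1 + e) * a ^ n) :
    traj a b e (Real.toNNReal (T a b e n + x)) = (-1) ^ n * x := by
  have hpos := zpow_pos (a_pos h) n
  have hb := h.hb
  have hb1 := h.hb1
  have he := h.he
  have hbe : 0 < b * e := mul_pos hb he
  rw [traj_toNNReal h (n := n) (by linarith)]
  · unfold exc
    rw [add_sub_cancel_left, prof_first hb he (by rw [div_le_iff₀ hpos]; exact h1),
      mul_div_cancel₀ _ hpos.ne']
  · rw [T_succ h]
    unfold len
    have : b * (1 + e) * a ^ n ≤ (2 + 2 * b * e) * a ^ n :=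
      mul_le_mul_of_nonneg_right (by nlinarith) hpos.le
    linarith

lemma traj_out (h : Good a b e) (n : ℤ) {x : ℝ} (h0 : b * a ^ n ≤ x) (h1 : x ≤ a ^ n) :
    traj a b e (Real.toNNReal (T a b e n + x + 2 * b * e * a ^ n)) = (-1) ^ n * x := by
  have hpos := zpow_pos (a_pos h) n
  have hb := h.hb
  have he := h.he
  have hbe : 0 < b * e := mul_pos hb he
  have hbea : 0 < b * e * a ^ n := mul_pos hbe hpos
  have hba : 0 < b * a ^ n := mul_pos hb hpos
  rw [traj_toNNReal h (n := n) (by linarith)]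
  · unfold exc
    have h2 : (T a b e n + x + 2 * b * e * a ^ n - T a b e n) / a ^ n
        = x / a ^ n + 2 * b * e := by
      field_simp; ring
    have h3 : b ≤ x / a ^ n := by rw [le_div_iff₀ hpos]; exact h0
    have h4 : x / a ^ n ≤ 1 := by rw [div_le_iff₀ hpos]; linarith
    rw [h2, prof_out (by linarith) (by linarith), add_sub_cancel_right,
      mul_div_cancel₀ _ hpos.ne']
  · rw [T_succ h]
    unfold len
    linarith

lemma traj_back (h : Good a b e) (n : ℤ) {x : ℝ} (h0 : 0 ≤ x) (h1 : x ≤ a ^ n) :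
    traj a b e (Real.toNNReal (T a b e (n + 1) - x)) = (-1) ^ n * x := by
  have hpos := zpow_pos (a_pos h) n
  have hb := h.hb
  have he := h.he
  have hbe : 0 < b * e := mul_pos hb he
  have hbea : 0 < b * e * a ^ n := mul_pos hbe hpos
  rw [traj_toNNReal h (n := n) _ (by linarith)]
  · unfold exc
    have h2 : (T a b e (n + 1) - x - T a b e n) / a ^ n
        = 2 + 2 * b * e - x / a ^ n := by
      rw [T_succ h]; unfold len
      field_simp; ring
    have h4 : x / a ^ n ≤ 1 := by rw [div_le_iff₀ hpos]; linarith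
    rw [h2, prof_back h.hb1 (by linarith)]
    have h5 : 2 + 2 * b * e - (2 + 2 * b * e - x / a ^ n) = x / a ^ n := by ring
    rw [h5, mul_div_cancel₀ _ hpos.ne']
  · rw [T_succ h]
    unfold len
    linarith

/-- Visit times to a point at distance `x`, without the early ones in the window. -/
noncomputable def seqA (a b e : ℝ) (i : ℤ) (x : ℝ) (m : ℕ) : ℝ :=
  T a b e (i + m) + (-1) ^ m * x + if m = 0 then 2 * b * e * a ^ i else 0

/-- Visit times to a point at distance `x`, in the window. -/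
noncomputable def seqB (a b e : ℝ) (i : ℤ) (x : ℝ) (m : ℕ) : ℝ :=
  match m with
  | 0 => T a b e i + x
  | m + 1 => seqA a b e i x m

lemma seqA_strictMono (h : Good a b e) (i : ℤ) {x : ℝ} (h0 : 0 < x) (h1 : x < a ^ i) :
    StrictMono (seqA a b e i x) := by
  have hb := h.hb
  have he := h.he
  have hbe : 0 < b * e := mul_pos hb he
  refine strictMono_nat_of_lt_succ fun m => ?_
  unfold seqA
  have hpos := zpow_pos (a_pos h) (i + m)
  have hle : a ^ i ≤ a ^ (i + m) := zpow_le_zpow_right₀ h.ha.le (by omega)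
  have hbea : 0 < b * e * a ^ (i + (m : ℤ)) := mul_pos hbe hpos
  have hT : T a b e (i + ((m + 1 : ℕ) : ℤ)) = T a b e (i + m) + len b e * a ^ (i + (m : ℤ)) := by
    rw [← T_succ h]; push_cast; ring_nf
  rw [hT, if_neg (Nat.succ_ne_zero m)]
  unfold len
  rcases Nat.eq_zero_or_pos m with hm | hm
  · subst hm
    simp only [Nat.cast_zero, add_zero, pow_zero, one_mul, if_true, zero_add, pow_one]
    have hi : 0 < a ^ i := zpow_pos (a_pos h) i
    nlinarith
  · rw [if_neg hm.ne', pow_succ]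
    rcases neg_one_pow_eq_or ℝ m with h2 | h2 <;> rw [h2] <;> nlinarith

lemma seqA_traj (h : Good a b e) (i : ℤ) {x : ℝ} (h0 : b * a ^ i ≤ x) (h1 : x < a ^ i) (m : ℕ) :
    traj a b e (Real.toNNReal (seqA a b e i x m)) = (-1) ^ i * x := by
  have hi : 0 < a ^ i := zpow_pos (a_pos h) i
  have hx : 0 < x := lt_of_lt_of_le (mul_pos h.hb hi) h0
  unfold seqA
  rcases Nat.even_or_odd m with hm | hm
  · rw [hm.neg_one_pow, one_mul]
    rcases Nat.eq_zero_or_pos m with hm0 | hm0
    · subst hm0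
      rw [if_pos rfl, Nat.cast_zero, add_zero]
      exact traj_out h i h0 h1.le
    · rw [if_neg hm0.ne', add_zero]
      obtain ⟨k, rfl⟩ := hm
      have hk : 1 ≤ k := by omega
      have h2 : x ≤ b * (1 + e) * a ^ (i + ((k + k : ℕ) : ℤ)) := by
        have h3 : a ^ i ≤ b * a ^ (i + ((k + k : ℕ) : ℤ)) := by
          have h4 : a ^ (i + ((k + k : ℕ) : ℤ)) = a ^ 2 * a ^ (i + ((k + k : ℕ) : ℤ) - 2) := by
            rw [← zpow_natCast a 2, ← zpow_add₀ (a_pos h).ne']
            congr 1; push_cast; ring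
          rw [h4, ← mul_assoc, h.hab, one_mul]
          exact zpow_le_zpow_right₀ h.ha.le (by push_cast; omega)
        have h5 : 0 < a ^ (i + ((k + k : ℕ) : ℤ)) := zpow_pos (a_pos h) _
        have h6 : 0 < b * e * a ^ (i + ((k + k : ℕ) : ℤ)) := mul_pos (mul_pos h.hb h.he) h5
        nlinarith
      rw [traj_first h _ hx.le h2]
      congr 1
      rw [zpow_add₀ (by norm_num), zpow_natCast, Even.neg_one_pow ⟨k, rfl⟩, mul_one]
  · rw [hm.neg_one_pow, if_neg (by rintro rfl; exact absurd hm (by decide)), add_zero]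
    obtain ⟨k, rfl⟩ := hm
    have h2 : (i + ((2 * k + 1 : ℕ) : ℤ)) = (i + 2 * k) + 1 := by push_cast; ring
    rw [h2, neg_one_mul, ← sub_eq_add_neg]
    rw [traj_back h _ hx.le]
    · congr 1
      rw [zpow_add₀ (by norm_num), zpow_mul]
      norm_num
    · exact h1.le.trans (zpow_le_zpow_right₀ h.ha.le (by omega))

lemma seqA_pos (h : Good a b e) (i : ℤ) {x : ℝ} (h0 : 0 < x) (h1 : x < a ^ i) (m : ℕ) :
    0 < seqA a b e i x m := by
  have h2 : seqA a b e i x 0 ≤ seqA a b e i x m :=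
    (seqA_strictMono h i h0 h1).monotone (Nat.zero_le m)
  refine lt_of_lt_of_le ?_ h2
  unfold seqA
  have := T_pos h i
  have hi : 0 < a ^ i := zpow_pos (a_pos h) i
  have hbea : 0 < b * e * a ^ i := mul_pos (mul_pos h.hb h.he) hi
  simp only [Nat.cast_zero, add_zero, pow_zero, one_mul, if_true]
  linarith

lemma seqB_strictMono (h : Good a b e) (i : ℤ) {x : ℝ} (h0 : 0 < x) (h1 : x < a ^ i) :
    StrictMono (seqB a b e i x) := by
  refine strictMono_nat_of_lt_succ fun m => ?_
  cases m with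
  | zero =>
    show T a b e i + x < seqA a b e i x 0
    unfold seqA
    have hi : 0 < a ^ i := zpow_pos (a_pos h) i
    have hbea : 0 < b * e * a ^ i := mul_pos (mul_pos h.hb h.he) hi
    simp only [Nat.cast_zero, add_zero, pow_zero, one_mul, if_true]
    linarith
  | succ m => exact seqA_strictMono h i h0 h1 (Nat.lt_succ_self m)

lemma seqB_pos (h : Good a b e) (i : ℤ) {x : ℝ} (h0 : 0 < x) (h1 : x < a ^ i) (m : ℕ) :
    0 < seqB a b e i x m := by
  cases m with
  | zero =>
    have := T_pos h i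
    show 0 < T a b e i + x
    linarith
  | succ m => exact seqA_pos h i h0 h1 m

lemma seqB_traj (h : Good a b e) (i : ℤ) {x : ℝ} (h0 : b * a ^ i ≤ x)
    (h0' : x ≤ b * (1 + e) * a ^ i) (h1 : x < a ^ i) (m : ℕ) :
    traj a b e (Real.toNNReal (seqB a b e i x m)) = (-1) ^ i * x := by
  have hi : 0 < a ^ i := zpow_pos (a_pos h) i
  have hx : 0 < x := lt_of_lt_of_le (mul_pos h.hb hi) h0
  cases m with
  | zero => exact traj_first h i hx.le h0'
  | succ m => exact seqA_traj h i h0 h1 m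

lemma toNNReal_strictMono {s : ℕ → ℝ} (hs : StrictMono s) (hpos : ∀ m, 0 < s m) :
    StrictMono (fun m => Real.toNNReal (s m)) := by
  intro m n hmn
  exact (Real.toNNReal_lt_toNNReal_iff (hpos n)).2 (hs hmn)

lemma T_add (h : Good a b e) (i : ℤ) (m : ℕ) : T a b e (i + m) = T a b e i * a ^ m := by
  unfold T
  rw [zpow_add₀ (a_pos h).ne', zpow_natCast]; ring

/-- Expected value along `seqA`. -/
noncomputable def costA (p a b e : ℝ) (i : ℤ) (x : ℝ) : ℝ :=
  p * T a b e i * (1 - (1 - p) * a)⁻¹ + p * x * (1 - -(1 - p))⁻¹ + p * (2 * b * e * a ^ i)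

lemma hasSum_A (h : Good a b e) {p : ℝ} (hp0 : 0 < p) (hp1 : p < 1) (hqa : (1 - p) * a < 1)
    (i : ℤ) (x : ℝ) :
    HasSum (fun m => ((1 - p) ^ m * p) * seqA a b e i x m) (costA p a b e i x) := by
  have hq : 0 < 1 - p := sub_pos.2 hp1
  have h1 := (hasSum_geometric_of_lt_one (mul_pos hq (a_pos h)).le hqa).mul_left (p * T a b e i)
  have h2 := (hasSum_geometric_of_abs_lt_one (r := -(1 - p))
    (by rw [abs_neg, abs_of_pos hq]; linarith)).mul_left (p * x)
  have h3 := hasSum_ite_eq (0 : ℕ) (p * (2 * b * e * a ^ i))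
  have h4 := (h1.add h2).add h3
  have h5 : (fun m : ℕ => ((1 - p) ^ m * p) * seqA a b e i x m) = fun m : ℕ =>
      p * T a b e i * ((1 - p) * a) ^ m + p * x * (-(1 - p)) ^ m
        + if m = 0 then p * (2 * b * e * a ^ i) else 0 := by
    funext m
    unfold seqA
    rw [T_add h, mul_pow, neg_pow (1 - p)]
    rcases Nat.eq_zero_or_pos m with hm | hm
    · subst hm
      simp
      ring
    · rw [if_neg hm.ne', if_neg hm.ne']
      ring
  unfold costA
  rw [h5]
  exact h4

lemma hasSum_B (h : Good a b e) {p : ℝ} (hp0 : 0 < p) (hp1 : p < 1) (hqa : (1 - p) * a < 1)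
    (i : ℤ) (x : ℝ) :
    HasSum (fun m => ((1 - p) ^ m * p) * seqB a b e i x m)
      (p * (T a b e i + x) + (1 - p) * costA p a b e i x) := by
  have h1 := (hasSum_A h hp0 hp1 hqa i x).mul_left (1 - p)
  rw [add_comm]
  have h5 : (fun m : ℕ => ((1 - p) ^ (m + 1) * p) * seqB a b e i x (m + 1)) =
      fun m : ℕ => (1 - p) * (((1 - p) ^ m * p) * seqA a b e i x m) := by
    funext m
    show (1 - p) ^ (m + 1) * p * seqA a b e i x m = _
    rw [pow_succ]; ring
  have h2 := (hasSum_nat_add_iff (f := fun m => ((1 - p) ^ m * p) * seqB a b e i x m) 1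
    (g := (1 - p) * costA p a b e i x)).1 (by rw [h5]; exact h1)
  simpa [seqB] using h2

/-! ### The choice of the parameters -/

lemma good_param {p : ℝ} (hp0 : 0 < p) (hp1 : p < 1) :
    Good (2 / (2 - p)) ((2 - p) ^ 2 / 4) (p * (1 - p) / 8) where
  ha := by rw [lt_div_iff₀ (by linarith)]; linarith
  hb := by have : 0 < 2 - p := by linarith
           positivity
  hb1 := by nlinarith
  he := by have : 0 < 1 - p := by linarith
           positivity
  hab := by have : 2 - p ≠ 0 := by linarith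
            field_simp; norm_num

lemma costA_eq {p : ℝ} (hp0 : 0 < p) (hp1 : p < 1) (i : ℤ) (x e : ℝ) :
    costA p (2 / (2 - p)) ((2 - p) ^ 2 / 4) e i x =
      ((2 - p) ^ 2 / 4 * (2 / (2 - p)) ^ i) *
        (2 * p * e + 8 / p * (1 + (2 - p) ^ 2 / 4 * e)) + p / (2 - p) * x := by
  unfold costA T len
  have h1 : 2 - p ≠ 0 := by linarith
  have h2 : p ≠ 0 := hp0.ne'
  have h3 : 2 / (2 - p) - 1 = p / (2 - p) := by field_simp; ring
  have h4 : 1 - (1 - p) * (2 / (2 - p)) = p / (2 - p) := by field_simp; ring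
  have h5 : 1 - -(1 - p) = 2 - p := by ring
  rw [h3, h4, h5]
  generalize (2 / (2 - p)) ^ i = w
  field_simp
  ring

lemma T_eq {p : ℝ} (hp0 : 0 < p) (hp1 : p < 1) (i : ℤ) (e : ℝ) :
    T (2 / (2 - p)) ((2 - p) ^ 2 / 4) e i =
      ((2 - p) ^ 2 / 4 * (2 / (2 - p)) ^ i) *
        (8 * (1 + (2 - p) ^ 2 / 4 * e) / (p * (2 - p))) := by
  unfold T len
  have h1 : 2 - p ≠ 0 := by linarith
  have h2 : p ≠ 0 := hp0.ne'
  have h3 : 2 / (2 - p) - 1 = p / (2 - p) := by field_simp; ring
  rw [h3]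
  generalize (2 / (2 - p)) ^ i = w
  field_simp
  ring

/-- The bound outside the window. -/
lemma boundA {p x y : ℝ} (hp0 : 0 < p) (hp1 : p < 1) (hy : 0 < y)
    (hx : (1 + p * (1 - p) / 8) * y ≤ x) :
    y * (2 * p * (p * (1 - p) / 8) + 8 / p * (1 + (2 - p) ^ 2 / 4 * (p * (1 - p) / 8)))
      + p / (2 - p) * x ≤ (Vhat p - p * (1 - p) / 4) * x := by
  unfold Vhat
  have hq : 0 < 1 - p := by linarith
  have hpq : 0 < p * (1 - p) := mul_pos hp0 hq
  have h8 : 8 ≤ 8 / p := by rw [le_div_iff₀ hp0]; linarith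
  have key : 2 * p * (p * (1 - p) / 8) + 8 / p * (1 + (2 - p) ^ 2 / 4 * (p * (1 - p) / 8))
      ≤ (8 / p - p * (1 - p) / 4) * (1 + p * (1 - p) / 8) := by
    have e1 : (8 / p - p * (1 - p) / 4) * (1 + p * (1 - p) / 8)
        - (2 * p * (p * (1 - p) / 8) + 8 / p * (1 + (2 - p) ^ 2 / 4 * (p * (1 - p) / 8)))
        = p * (1 - p) * ((2 - p) / 2 - 1 / 4 * (1 + p * (1 - p) / 8)) := by
      field_simp
      ring
    have e2 : 0 ≤ (2 - p) / 2 - 1 / 4 * (1 + p * (1 - p) / 8) := by nlinarith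
    have := mul_nonneg hpq.le e2
    linarith
  have hfac : 0 ≤ 8 / p - p * (1 - p) / 4 := by nlinarith
  have h1 := mul_le_mul_of_nonneg_left key hy.le
  have h2 := mul_le_mul_of_nonneg_left hx hfac
  nlinarith

/-- The bound inside the window. -/
lemma boundB {p x y : ℝ} (hp0 : 0 < p) (hp1 : p < 1) (hy : 0 < y) (hx : y ≤ x) :
    p * (y * (8 * (1 + (2 - p) ^ 2 / 4 * (p * (1 - p) / 8)) / (p * (2 - p))) + x) +
      (1 - p) * (y * (2 * p * (p * (1 - p) / 8)
        + 8 / p * (1 + (2 - p) ^ 2 / 4 * (p * (1 - p) / 8))) + p / (2 - p) * x)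
      ≤ (Vhat p - p * (1 - p) / 4) * x := by
  unfold Vhat
  have hq : 0 < 1 - p := by linarith
  have h2p : 0 < 2 - p := by linarith
  have hpq : 0 < p * (1 - p) := mul_pos hp0 hq
  have hx0 : 0 < x := hy.trans_le hx
  have hcoef : 0 ≤ p * (8 * (1 + (2 - p) ^ 2 / 4 * (p * (1 - p) / 8)) / (p * (2 - p)))
      + (1 - p) * (2 * p * (p * (1 - p) / 8)
        + 8 / p * (1 + (2 - p) ^ 2 / 4 * (p * (1 - p) / 8))) := by positivity
  have h1 := mul_le_mul_of_nonneg_left hx hcoef
  have key : p * (8 * (1 + (2 - p) ^ 2 / 4 * (p * (1 - p) / 8)) / (p * (2 - p)))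
      + (1 - p) * (2 * p * (p * (1 - p) / 8)
        + 8 / p * (1 + (2 - p) ^ 2 / 4 * (p * (1 - p) / 8)))
      + p + (1 - p) * (p / (2 - p)) ≤ p / (2 - p) + 8 / p - p * (1 - p) / 4 := by
    have e1 : p / (2 - p) + 8 / p - p * (1 - p) / 4 -
        (p * (8 * (1 + (2 - p) ^ 2 / 4 * (p * (1 - p) / 8)) / (p * (2 - p)))
          + (1 - p) * (2 * p * (p * (1 - p) / 8)
            + 8 / p * (1 + (2 - p) ^ 2 / 4 * (p * (1 - p) / 8)))
          + p + (1 - p) * (p / (2 - p)))
        = (1 - p) * ((8 - 2 * p) - (2 - p) * (p * (2 - p) / 4 + (1 - p) * (2 - p) ^ 2 / 4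
            + p ^ 2 * (1 - p) / 4 + p / 4)) / (2 - p) := by
      field_simp
      ring
    have e2 : 0 ≤ (8 - 2 * p) - (2 - p) * (p * (2 - p) / 4 + (1 - p) * (2 - p) ^ 2 / 4
            + p ^ 2 * (1 - p) / 4 + p / 4) := by
      have a1 : p * (2 - p) ≤ 1 := by nlinarith [sq_nonneg (1 - p)]
      have a2 : (1 - p) * (2 - p) ^ 2 ≤ 4 := by nlinarith [mul_pos hp0 hq, mul_pos hp0 h2p]
      have a3 : p ^ 2 * (1 - p) ≤ 1 := by nlinarith
      nlinarith
    have := div_nonneg (mul_nonneg hq.le e2) h2p.le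
    linarith
  have h2 := mul_le_mul_of_nonneg_right key hx0.le
  nlinarith

/-- Every point of the line other than the origin is reached by the right excursion. -/
lemma exists_index {a : ℝ} (ha : 1 < a) {b : ℝ} (hab : b * a ^ 2 = 1) {H : ℝ} (hH : H ≠ 0) :
    ∃ i : ℤ, b * a ^ i ≤ |H| ∧ |H| < a ^ i ∧ (-1) ^ i * |H| = H := by
  obtain ⟨m, hm, hm'⟩ := exists_mem_Ico_zpow (abs_pos.2 hH) ha
  have ha0 : 0 < a := lt_trans one_pos ha
  have hb : ∀ i : ℤ, b * a ^ i = a ^ (i - 2) := by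
    intro i
    have : a ^ i = a ^ 2 * a ^ (i - 2) := by
      rw [← zpow_natCast a 2, ← zpow_add₀ ha0.ne']
      congr 1; push_cast; ring
    rw [this, ← mul_assoc, hab, one_mul]
  have hsign : ∃ i : ℤ, (i = m + 1 ∨ i = m + 2) ∧ (-1 : ℝ) ^ i * |H| = H := by
    have h1 : (-1 : ℝ) ^ (m + 2) = - (-1 : ℝ) ^ (m + 1) := by
      rw [show m + 2 = (m + 1) + 1 by ring, zpow_add_one₀ (by norm_num)]; ring
    have h2 : (-1 : ℝ) ^ (m + 1) = 1 ∨ (-1 : ℝ) ^ (m + 1) = -1 := by
      rcases Int.even_or_odd (m + 1) with h | h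
      · left; exact h.neg_one_zpow
      · right; exact h.neg_one_zpow
    rcases abs_choice H with h3 | h3 <;> rcases h2 with h2 | h2
    · exact ⟨m + 1, Or.inl rfl, by rw [h2, h3, one_mul]⟩
    · exact ⟨m + 2, Or.inr rfl, by rw [h1, h2, h3]; ring⟩
    · exact ⟨m + 2, Or.inr rfl, by rw [h1, h2, h3]; ring⟩
    · exact ⟨m + 1, Or.inl rfl, by rw [h2, h3]; ring⟩
  obtain ⟨i, hi, hs⟩ := hsign
  refine ⟨i, ?_, ?_, hs⟩
  · rw [hb]
    exact le_trans (zpow_le_zpow_right₀ ha.le (by omega)) hm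
  · exact lt_of_lt_of_le hm' (zpow_le_zpow_right₀ ha.le (by omega))

lemma expectedTime_traj {p : ℝ} (hp0 : 0 < p) (hp1 : p < 1) {H : ℝ} (hH : H ≠ 0) :
    expectedTime p (traj (2 / (2 - p)) ((2 - p) ^ 2 / 4) (p * (1 - p) / 8)) H ≤
      ENNReal.ofReal ((Vhat p - p * (1 - p) / 4) * |H|) := by
  have hg := good_param hp0 hp1
  have hqa : (1 - p) * (2 / (2 - p)) < 1 := by
    rw [mul_div_assoc', div_lt_one (by linarith)]; linarith
  obtain ⟨i, h1, h2, h3⟩ := exists_index hg.ha hg.hab hH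
  have hi : 0 < (2 / (2 - p)) ^ i := zpow_pos (a_pos hg) i
  have hy : 0 < (2 - p) ^ 2 / 4 * (2 / (2 - p)) ^ i := mul_pos hg.hb hi
  have hx : 0 < |H| := abs_pos.2 hH
  by_cases hc : |H| ≤ (2 - p) ^ 2 / 4 * (1 + p * (1 - p) / 8) * (2 / (2 - p)) ^ i
  · have hs := seqB_strictMono hg i hx h2
    have hs0 := seqB_pos hg i hx h2
    refine (expectedTime_le (traj_finite hg H hH) (toNNReal_strictMono hs hs0) ?_ hp0.le hp1.le
      (c := p * (T (2 / (2 - p)) ((2 - p) ^ 2 / 4) (p * (1 - p) / 8) i + |H|)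
        + (1 - p) * costA p (2 / (2 - p)) ((2 - p) ^ 2 / 4) (p * (1 - p) / 8) i |H|) ?_).trans ?_
    · intro m
      rw [seqB_traj hg i h1 hc h2 m, h3]
    · have := hasSum_B hg hp0 hp1 hqa i |H|
      convert this using 4 with m
      exact Real.coe_toNNReal _ (hs0 m).le
    · apply ENNReal.ofReal_le_ofReal
      rw [costA_eq hp0 hp1, T_eq hp0 hp1]
      exact boundB hp0 hp1 hy h1
  · have hs := seqA_strictMono hg i hx h2
    have hs0 := seqA_pos hg i hx h2
    refine (expectedTime_le (traj_finite hg H hH) (toNNReal_strictMono hs hs0) ?_ hp0.le hp1.le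
      (c := costA p (2 / (2 - p)) ((2 - p) ^ 2 / 4) (p * (1 - p) / 8) i |H|) ?_).trans ?_
    · intro m
      rw [seqA_traj hg i h1 h2 m, h3]
    · have := hasSum_A hg hp0 hp1 hqa i |H|
      convert this using 4 with m
      exact Real.coe_toNNReal _ (hs0 m).le
    · apply ENNReal.ofReal_le_ofReal
      rw [costA_eq hp0 hp1]
      refine boundA hp0 hp1 hy ?_
      rw [not_le] at hc
      have : (1 + p * (1 - p) / 8) * ((2 - p) ^ 2 / 4 * (2 / (2 - p)) ^ i)
        = (2 - p) ^ 2 / 4 * (1 + p * (1 - p) / 8) * (2 / (2 - p)) ^ i := by ring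
      rw [this]
      exact hc.le

lemma Vhat_gt {p : ℝ} (hp0 : 0 < p) (hp1 : p < 1) : 0 < Vhat p - p * (1 - p) / 4 := by
  unfold Vhat
  have h1 : 0 < p / (2 - p) := div_pos hp0 (by linarith)
  have h8 : 8 ≤ 8 / p := by rw [le_div_iff₀ hp0]; linarith
  nlinarith

/-- For every detection probability `p` in `(0, 1)` there is an admitted trajectory whose
guaranteed cost is at most `Vhat p - p (1 - p) / 4`, hence strictly below `Vhat p`; so the pure
value of the game is strictly below `Vhat p`, and the geometric trajectory is not minimax. -/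
theorem result (p : ℝ) (hp0 : 0 < p) (hp1 : p < 1) :
    (∃ S : ℝ≥0 → ℝ, IsTrajectory S ∧ Admitted S ∧
      guaranteedCost p S ≤ ENNReal.ofReal (p / (2 - p) + 8 / p - p * (1 - p) / 4) ∧
      guaranteedCost p S < ENNReal.ofReal (p / (2 - p) + 8 / p)) ∧
    pureValue p < ENNReal.ofReal (p / (2 - p) + 8 / p) := by
  have hg := good_param hp0 hp1
  have hle : guaranteedCost p (traj (2 / (2 - p)) ((2 - p) ^ 2 / 4) (p * (1 - p) / 8)) ≤
      ENNReal.ofReal (Vhat p - p * (1 - p) / 4) := by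
    refine iSup₂_le fun H hH => ?_
    have hH' : 0 < |H| := abs_pos.2 hH
    refine ENNReal.div_le_of_le_mul ?_
    rw [← ENNReal.ofReal_mul (Vhat_gt hp0 hp1).le]
    exact expectedTime_traj hp0 hp1 hH
  have hlt : ENNReal.ofReal (Vhat p - p * (1 - p) / 4) < ENNReal.ofReal (Vhat p) := by
    have h1 := Vhat_gt hp0 hp1
    have h2 : 0 < p * (1 - p) := mul_pos hp0 (by linarith)
    exact (ENNReal.ofReal_lt_ofReal_iff (by linarith)).2 (by linarith)
  refine ⟨⟨_, traj_isTrajectory hg, admitted_of_finite (traj_finite hg), hle,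
    lt_of_le_of_lt hle hlt⟩, ?_⟩
  refine lt_of_le_of_lt ?_ (lt_of_le_of_lt hle hlt)
  exact iInf₂_le _ ⟨traj_isTrajectory hg, admitted_of_finite (traj_finite hg)⟩

end Pool.Agent.Results.MP_61cfb3_pr.RetraceBeatsGeometric
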